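import Pool.Agent.Y105.TM.Gen

/-!
# Tight manifolds of every dimension at least seven which are far from perfect

A stronger form of `TightNotPerfect` (dimension `7`): the statement asked about fails in every
dimension `d ≥ 7`, with an exponentially large gap. The notions (`Cplx`, `sd`, `IsManifold`,
`Tight`, `IsMorse`, `crit`, `betti`, `Perfect`) are those of `Pool.Agent.H999R3.Tm.Defs`.
-/

set_option autoImplicit false

namespace Pool.Agent.Results.MP_e98a5c_gt.TightFarFromPerfect

open Pool.Agent.H999R3.Tm

/-- For every `d ≥ 7` there is a tight simplicial `d`-manifold `C` such that, for every `k`, every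
discrete Morse function on the `k`-th barycentric subdivision of `C` has at least
`β_2 + 2 ^ (d - 7)` critical faces of dimension `2`; in particular none of the iterated
barycentric subdivisions of `C` is perfect. The case `k = d - 2` disproves the statement asked
about in every dimension `d ≥ 7`. -/
theorem result (d : ℕ) (hd : 7 ≤ d) : ∃ C : Cplx, C.IsManifold d ∧ C.Tight ∧
    (∀ (k : ℕ) (f : Finset (Cplx.sd^[k] C).V → ℝ), (Cplx.sd^[k] C).IsMorse f →
      (Cplx.sd^[k] C).betti 2 + 2 ^ (d - 7) ≤ ((Cplx.sd^[k] C).crit f 2).ncard) ∧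
    ∀ k : ℕ, ¬ (Cplx.sd^[k] C).Perfect := by
  obtain ⟨C, h1, h2, h3⟩ := Pool.Agent.Y105.TM.main d hd
  refine ⟨C, h1, h2, h3, fun k ⟨f, hf, hc⟩ => ?_⟩
  have h4 := h3 k f hf
  rw [hc 2] at h4
  have h5 : 0 < 2 ^ (d - 7) := Nat.two_pow_pos _
  omega

end Pool.Agent.Results.MP_e98a5c_gt.TightFarFromPerfect
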